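import Pool.Agent.Helper1K9.TH.Fin

/-!
# The second-order theta map `Th : A_g(2,4) → ℙ^{2^g - 1}` is not an embedding for `g ≥ 4`

Definitions (in `Pool.Agent.Helper1K9.TH`): `Sy g` (symmetric matrices), `Siegel g`, `Gam g`
(the group `Γ_g(2,4)`), its action on `Siegel g`, `A24 g` (the quotient), `theta`, `Th`
(the vector of the second-order theta constants), `HolOn` (holomorphic functions on open subsets
of `A_g(2,4)`), `ProjHol` (holomorphic functions on open subsets of projective space),
`SurjLocal x` (surjectivity of `𝒪_{ℙ, Th(x)} → 𝒪_{A_g(2,4), x}`), `EmbeddingClaim g`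
(`Th` is injective and surjective on all local rings), `bp g` (the point `i · 1_g`).

Near the class of `i · 1_g`, the product of four entries `τ₁₂ τ₂₃ τ₃₄ τ₄₁` is a holomorphic function
on `A_g(2,4)` which is not of the form `F ∘ Th` with `F` holomorphic: modulo products of functions
vanishing at the point, the theta constants only depend on the sum of the three functions obtained
from the three 4-cycles on `{1, 2, 3, 4}`.
-/

set_option autoImplicit false

namespace Pool.Agent.Results.MP_2bf81a_ag.NotAnEmbedding

open Pool.Agent.Helper1K9.TH

/-- For every `g ≥ 4` the theta map is not an isomorphism onto its image near the class of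
`i · 1_g`: the map of local rings is not surjective there. In particular the theta map is not an
embedding. -/
theorem result : ∀ g : ℕ, 4 ≤ g → ¬ SurjLocal (A24.mk (bp g)) ∧ ¬ EmbeddingClaim g :=
  fun _ hg => ⟨main hg, fun h => main hg (h.2 _)⟩

end Pool.Agent.Results.MP_2bf81a_ag.NotAnEmbedding
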